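import Mathlib

set_option autoImplicit false

namespace Pool.Agent.X145.WP

open Finset SimpleGraph

theorem tri_le {V : Type*} [Fintype V] [DecidableEq V] (G G' : SimpleGraph V) [DecidableRel G.Adj]
    [DecidableRel G'.Adj] (hle : G' ≤ G) (hfree : G'.CliqueFree 3)
    (h2 : ∀ x y, G.Adj x y → (univ.filter fun z => G.Adj x z ∧ G.Adj y z).card ≤ 2) :
    (G.cliqueFinset 3).card ≤ 2 * (G.edgeFinset.card - G'.edgeFinset.card) := by
  have h1 : G.cliqueFinset 3 ⊆ (G.edgeFinset \ G'.edgeFinset).biUnion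
      (fun e => (G.cliqueFinset 3).filter fun s => ∀ x ∈ e, x ∈ s) := by
    intro s hs
    have hs' : ¬ G'.IsNClique 3 s := hfree s
    rw [mem_cliqueFinset_iff] at hs
    have hn : ¬ G'.IsClique s := fun h => hs' ⟨h, hs.2⟩
    rw [isClique_iff, Set.Pairwise] at hn
    push Not at hn
    obtain ⟨x, hx, y, hy, hxy, hn⟩ := hn
    simp only [mem_biUnion, mem_sdiff, mem_edgeFinset, mem_filter]
    refine ⟨s(x, y), ⟨hs.1 hx hy hxy, hn⟩, ⟨mem_cliqueFinset_iff.2 hs, ?_⟩⟩
    intro z hz
    rcases Sym2.mem_iff.1 hz with rfl | rfl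
    · exact hx
    · exact hy
  have h3 : ∀ e ∈ G.edgeFinset \ G'.edgeFinset,
      ((G.cliqueFinset 3).filter fun s => ∀ x ∈ e, x ∈ s).card ≤ 2 := by
    intro e
    induction e with
    | h x y =>
      intro he
      rw [mem_sdiff, mem_edgeFinset] at he
      have hadj : G.Adj x y := he.1
      calc ((G.cliqueFinset 3).filter fun s => ∀ z ∈ s(x, y), z ∈ s).card
          ≤ ((univ.filter fun z => G.Adj x z ∧ G.Adj y z).image fun z => ({x, y, z} : Finset V)).card := by
            refine card_le_card fun s hs => ?_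
            rw [mem_filter, mem_cliqueFinset_iff] at hs
            obtain ⟨hs, hxy⟩ := hs
            have hx : x ∈ s := hxy x (Sym2.mem_mk_left _ _)
            have hy : y ∈ s := hxy y (Sym2.mem_mk_right _ _)
            have hy' : y ∈ s.erase x := mem_erase.2 ⟨hadj.ne', hy⟩
            have hc : ((s.erase x).erase y).card = 1 := by
              rw [card_erase_of_mem hy', card_erase_of_mem hx, hs.2]
            obtain ⟨z, hz⟩ := card_eq_one.1 hc
            have hzm : z ∈ (s.erase x).erase y := by rw [hz]; exact mem_singleton_self z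
            rw [mem_erase, mem_erase] at hzm
            rw [mem_image]
            refine ⟨z, mem_filter.2 ⟨mem_univ _, hs.1 hx hzm.2.2 hzm.2.1.symm,
              hs.1 hy hzm.2.2 hzm.1.symm⟩, ?_⟩
            rw [← hz, insert_erase hy', insert_erase hx]
        _ ≤ (univ.filter fun z => G.Adj x z ∧ G.Adj y z).card := card_image_le
        _ ≤ 2 := h2 x y hadj
  calc (G.cliqueFinset 3).card ≤ _ := card_le_card h1
    _ ≤ ∑ e ∈ G.edgeFinset \ G'.edgeFinset,
        ((G.cliqueFinset 3).filter fun s => ∀ x ∈ e, x ∈ s).card := card_biUnion_le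
    _ ≤ ∑ e ∈ G.edgeFinset \ G'.edgeFinset, 2 := Finset.sum_le_sum h3
    _ = 2 * (G.edgeFinset.card - G'.edgeFinset.card) := by
        rw [Finset.sum_const, card_sdiff_of_subset (edgeFinset_mono hle), smul_eq_mul, mul_comm]

/-- at most two common neighbours of every clique with `d` vertices -/
def AtMostTwo {V : Type*} (G : SimpleGraph V) (d : ℕ) : Prop :=
  ∀ s : Finset V, G.IsNClique d s → ({z | ∀ x ∈ s, G.Adj x z} : Set V).ncard ≤ 2

open Classical in
theorem base (ε : ℝ) (hε : 0 < ε) : ∃ n₀ : ℕ, ∀ (V : Type) (_ : Fintype V) (G : SimpleGraph V),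
    n₀ ≤ Fintype.card V → AtMostTwo G 2 →
    ((G.cliqueFinset 3).card : ℝ) ≤ ε * (Fintype.card V : ℝ) ^ 2 := by
  have hb : 0 < triangleRemovalBound (min (ε / 2) (1 / 2)) := triangleRemovalBound_pos (by positivity)
  obtain ⟨n₀, hn₀⟩ := exists_nat_gt (1 / triangleRemovalBound (min (ε / 2) (1 / 2)))
  refine ⟨max n₀ 1, fun V _ G hn h2 => ?_⟩
  have hnn : (n₀ : ℝ) ≤ Fintype.card V := by exact_mod_cast le_trans (le_max_left _ _) hn
  have hn1 : (1 : ℝ) ≤ Fintype.card V := by exact_mod_cast le_trans (le_max_right _ _) hn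
  have h2' : ∀ x y, G.Adj x y → (univ.filter fun z => G.Adj x z ∧ G.Adj y z).card ≤ 2 := by
    intro x y hxy
    have h3 := h2 {x, y} ⟨by
      rw [isClique_iff]
      intro a ha b hb hab
      simp only [coe_insert, coe_singleton, Set.mem_insert_iff, Set.mem_singleton_iff] at ha hb
      rcases ha with rfl | rfl <;> rcases hb with rfl | rfl
      · exact absurd rfl hab
      · exact hxy
      · exact hxy.symm
      · exact absurd rfl hab, card_pair hxy.ne⟩
    rw [Set.ncard_eq_toFinset_card'] at h3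
    refine le_trans (card_le_card fun z hz => ?_) h3
    rw [mem_filter] at hz
    simp [hz.2.1, hz.2.2]
  have h4 := tri_le G ⊥ bot_le (by
    intro s hs
    have := hs.1
    have hc := hs.2
    obtain ⟨a, ha, b, hb, hab⟩ := one_lt_card.1 (show 1 < s.card by omega)
    exact (this ha hb hab)) h2'
  have h5 : (G.edgeFinset.card : ℝ) ≤ (Fintype.card V : ℝ) ^ 2 / 2 := by
    have := G.card_edgeFinset_le_card_choose_two
    have h6 : ((Fintype.card V).choose 2 : ℝ) ≤ (Fintype.card V : ℝ) ^ 2 / 2 := by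
      rw [Nat.cast_choose_two]
      nlinarith
    exact le_trans (by exact_mod_cast this) h6
  have h7 : ((G.cliqueFinset 3).card : ℝ) ≤ (Fintype.card V : ℝ) ^ 2 := by
    have h8 : ((G.cliqueFinset 3).card : ℝ) ≤ 2 * (G.edgeFinset.card : ℝ) := by
      exact_mod_cast h4.trans (Nat.mul_le_mul_left 2 (Nat.sub_le _ _))
    linarith
  have h9 : ((G.cliqueFinset 3).card : ℝ) <
      triangleRemovalBound (min (ε / 2) (1 / 2)) * (Fintype.card V : ℝ) ^ 3 := by
    refine lt_of_le_of_lt h7 ?_
    have h10 : 1 < triangleRemovalBound (min (ε / 2) (1 / 2)) * (Fintype.card V : ℝ) := by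
      rw [div_lt_iff₀ hb] at hn₀
      nlinarith
    have h11 : (0 : ℝ) < (Fintype.card V : ℝ) ^ 2 := by positivity
    nlinarith
  obtain ⟨G', hle, hdec, hedge, hfree⟩ := triangle_removal h9
  have h12 := tri_le G G' hle hfree h2'
  have h13 : G'.edgeFinset.card ≤ G.edgeFinset.card := card_le_card (edgeFinset_mono hle)
  have h14 : ((G.cliqueFinset 3).card : ℝ) ≤ 2 * ((G.edgeFinset.card : ℝ) - G'.edgeFinset.card) := by
    rw [← Nat.cast_sub h13]
    exact_mod_cast h12
  have h15 : min (ε / 2) (1 / 2) ≤ ε / 2 := min_le_left _ _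
  push_cast at hedge
  have h16 : min (ε / 2) (1 / 2) * (Fintype.card V : ℝ) ^ 2 ≤ ε / 2 * (Fintype.card V : ℝ) ^ 2 := by
    gcongr
  linarith

/-- link of a vertex -/
def lk {V : Type*} (G : SimpleGraph V) (x : V) : SimpleGraph V where
  Adj y z := G.Adj x y ∧ G.Adj x z ∧ G.Adj y z
  symm := ⟨fun _ _ h => ⟨h.2.1, h.1, h.2.2.symm⟩⟩
  loopless := ⟨fun y h => G.loopless.irrefl y h.2.2⟩

theorem lk_atMostTwo {V : Type*} [Finite V] (G : SimpleGraph V) (x : V) (d : ℕ) (hd : 2 ≤ d)
    (h : AtMostTwo G (d + 1)) : AtMostTwo (lk G x) d := by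
  classical
  intro s hs
  have hx : ∀ y ∈ s, G.Adj x y := by
    intro y hy
    obtain ⟨z, hz, hzy⟩ := exists_mem_ne (show 1 < s.card by rw [hs.2]; omega) y
    exact (hs.1 hy hz hzy.symm).1
  have hxs : x ∉ s := fun hxs => G.loopless.irrefl x (hx x hxs)
  have h1 : G.IsNClique (d + 1) (insert x s) := by
    refine ⟨?_, by rw [card_insert_of_notMem hxs, hs.2]⟩
    rw [coe_insert, isClique_insert]
    refine ⟨fun a ha b hb hab => (hs.1 ha hb hab).2.2, fun b hb _ => hx b hb⟩
  refine le_trans (Set.ncard_le_ncard ?_ (Set.toFinite _)) (h _ h1)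
  intro z hz y hy
  rw [mem_insert] at hy
  obtain ⟨w, hw⟩ : s.Nonempty := card_pos.1 (by rw [hs.2]; omega)
  rcases hy with rfl | hy
  · exact (hz w hw).2.1
  · exact (hz y hy).2.2

open Classical in
theorem clique_le_sum {V : Type*} [Fintype V] (G : SimpleGraph V) (d : ℕ) :
    (G.cliqueFinset (d + 1)).card ≤ ∑ x : V, ((lk G x).cliqueFinset d).card := by
  calc (G.cliqueFinset (d + 1)).card
      ≤ ((univ : Finset V).biUnion fun x => ((lk G x).cliqueFinset d).image fun s => insert x s).card := by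
        refine card_le_card fun s hs => ?_
        rw [mem_cliqueFinset_iff] at hs
        obtain ⟨x, hx⟩ : s.Nonempty := card_pos.1 (by rw [hs.2]; omega)
        rw [mem_biUnion]
        refine ⟨x, mem_univ _, mem_image.2 ⟨s.erase x, ?_, insert_erase hx⟩⟩
        rw [mem_cliqueFinset_iff]
        refine ⟨fun a ha b hb hab => ?_, by rw [card_erase_of_mem hx, hs.2]; rfl⟩
        rw [mem_coe, mem_erase] at ha hb
        exact ⟨hs.1 hx ha.2 ha.1.symm, hs.1 hx hb.2 hb.1.symm, hs.1 ha.2 hb.2 hab⟩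
    _ ≤ ∑ x : V, (((lk G x).cliqueFinset d).image fun s => insert x s).card := card_biUnion_le
    _ ≤ _ := Finset.sum_le_sum fun x _ => card_image_le

open Classical in
theorem general (d : ℕ) (hd : 2 ≤ d) : ∀ ε : ℝ, 0 < ε → ∃ n₀ : ℕ, ∀ (V : Type) (_ : Fintype V)
    (G : SimpleGraph V), n₀ ≤ Fintype.card V → AtMostTwo G d →
    ((G.cliqueFinset (d + 1)).card : ℝ) ≤ ε * (Fintype.card V : ℝ) ^ d := by
  induction d, hd using Nat.le_induction with
  | base => exact base
  | succ d hd ih =>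
    intro ε hε
    obtain ⟨n₀, hn₀⟩ := ih ε hε
    refine ⟨n₀, fun V _ G hn h => ?_⟩
    calc ((G.cliqueFinset (d + 1 + 1)).card : ℝ)
        ≤ ∑ x : V, (((lk G x).cliqueFinset (d + 1)).card : ℝ) := by
          exact_mod_cast clique_le_sum G (d + 1)
      _ ≤ ∑ _x : V, ε * (Fintype.card V : ℝ) ^ d :=
          Finset.sum_le_sum fun x _ => hn₀ V _ (lk G x) hn (lk_atMostTwo G x d hd h)
      _ = ε * (Fintype.card V : ℝ) ^ (d + 1) := by
          rw [Finset.sum_const, card_univ, nsmul_eq_mul]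
          ring

/-- the clique complex of `G` is a flag weak `(d-1)`-pseudomanifold: every maximal clique has
exactly `d` vertices, and the common neighbourhood of every clique with `d - 1` vertices consists
of two non-adjacent vertices -/
def IsFlagWeakPM {V : Type*} (G : SimpleGraph V) (d : ℕ) : Prop :=
  (∀ s : Finset V, G.IsClique s → (∀ t : Finset V, G.IsClique t → s ⊆ t → t = s) → s.card = d) ∧
  ∀ s : Finset V, G.IsNClique (d - 1) s → ∃ u v : V, u ≠ v ∧ ¬ G.Adj u v ∧
    {z | ∀ x ∈ s, G.Adj x z} = {u, v}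

/-- number of faces with `i + 1` vertices -/
noncomputable def fnum {V : Type*} (G : SimpleGraph V) (i : ℕ) : ℕ :=
  {s : Finset V | G.IsNClique (i + 1) s}.ncard

open Classical in
theorem fnum_eq {V : Type*} [Fintype V] (G : SimpleGraph V) (i : ℕ) :
    fnum G i = (G.cliqueFinset (i + 1)).card := by
  unfold fnum
  rw [← Set.ncard_coe_finset]
  congr 1
  ext s
  simp

open Classical in
theorem ridge_le {V : Type*} [Fintype V] (G : SimpleGraph V) (d : ℕ)
    (h : IsFlagWeakPM G (d + 1)) :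
    (G.cliqueFinset d).card ≤ (d + 1) * (G.cliqueFinset (d + 1)).card := by
  calc (G.cliqueFinset d).card
      ≤ ((G.cliqueFinset (d + 1)).biUnion fun s => s.powersetCard d).card := by
        refine card_le_card fun s hs => ?_
        rw [mem_cliqueFinset_iff] at hs
        obtain ⟨u, v, -, -, huv⟩ := h.2 s hs
        have hu : ∀ x ∈ s, G.Adj x u := by
          have : u ∈ {z | ∀ x ∈ s, G.Adj x z} := by rw [huv]; exact Or.inl rfl
          exact this
        have hus : u ∉ s := fun hus => G.loopless.irrefl u (hu u hus)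
        rw [mem_biUnion]
        refine ⟨insert u s, ?_, ?_⟩
        · rw [mem_cliqueFinset_iff]
          refine ⟨?_, by rw [card_insert_of_notMem hus, hs.2]⟩
          rw [coe_insert, isClique_insert]
          exact ⟨hs.1, fun b hb _ => (hu b hb).symm⟩
        · rw [mem_powersetCard]
          exact ⟨subset_insert _ _, hs.2⟩
    _ ≤ ∑ s ∈ G.cliqueFinset (d + 1), (s.powersetCard d).card := card_biUnion_le
    _ = ∑ s ∈ G.cliqueFinset (d + 1), (d + 1) := by
        refine Finset.sum_congr rfl fun s hs => ?_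
        rw [mem_cliqueFinset_iff] at hs
        rw [card_powersetCard, hs.2, Nat.choose_succ_self_right]
    _ = _ := by rw [Finset.sum_const, smul_eq_mul, mul_comm]

theorem main (d : ℕ) (hd : 2 ≤ d) (β : ℝ) (hβ : 0 < β) : ∃ n₀ : ℕ, ∀ (V : Type) (_ : Finite V)
    (G : SimpleGraph V), n₀ ≤ Nat.card V → IsFlagWeakPM G (d + 1) →
    (fnum G d : ℝ) ≤ β * (Nat.card V : ℝ) ^ d ∧ (fnum G (d - 1) : ℝ) ≤ β * (Nat.card V : ℝ) ^ d := by
  classical
  obtain ⟨n₀, hn₀⟩ := general d hd (β / (d + 1)) (by positivity)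
  refine ⟨n₀, fun V _ G hn h => ?_⟩
  have := Fintype.ofFinite V
  rw [Nat.card_eq_fintype_card] at hn ⊢
  have h2 : AtMostTwo G d := by
    intro s hs
    obtain ⟨u, v, huv, -, he⟩ := h.2 s hs
    rw [he]
    exact (Set.ncard_pair huv).le
  have h3 := hn₀ V _ G hn h2
  have h4 : (0 : ℝ) ≤ (Fintype.card V : ℝ) ^ d := by positivity
  have h5 := ridge_le G d h
  have hd1 : d - 1 + 1 = d := by omega
  have h6 : β / ((d : ℝ) + 1) ≤ β := div_le_self hβ.le (by linarith [(Nat.cast_nonneg d : (0:ℝ) ≤ d)])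
  rw [fnum_eq, fnum_eq, hd1]
  constructor
  · exact h3.trans (by gcongr)
  · calc ((G.cliqueFinset d).card : ℝ) ≤ (d + 1) * (G.cliqueFinset (d + 1)).card := by
          exact_mod_cast h5
      _ ≤ (d + 1) * (β / (d + 1) * (Fintype.card V : ℝ) ^ d) := by gcongr
      _ = _ := by field_simp

end Pool.Agent.X145.WP
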